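import Pool.Agent.Y920.AD.Stm

/-!
# A common step without jump for several monotone chains of finite sets
-/

set_option autoImplicit false

namespace Pool.Agent.Y930.AD

open Finset

lemma jumps {L : Type} (S : ℕ → Set L) (hmono : ∀ j, S j ⊆ S (j + 1)) (hne : (S 0).Nonempty)
    (k : ℕ) (J : ℕ → Prop) [DecidablePred J] (hJ : ∀ j, J j → S j ≠ S (j + 1)) (s : Finset L)
    (hs : S k ⊆ ↑s) : ((range k).filter J).card + 1 ≤ s.card := by
  have hm : Monotone S := monotone_nat_of_le_succ hmono
  have hfin : ∀ j ≤ k, (S j).Finite := fun j hj => s.finite_toSet.subset ((hm hj).trans hs)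
  have key : ∀ j ≤ k, ((range j).filter J).card + 1 ≤ (S j).ncard := by
    intro j
    induction j with
    | zero =>
      intro h0
      simp only [range_zero, filter_empty, card_empty, zero_add]
      exact Nat.one_le_iff_ne_zero.mpr (Set.ncard_pos (hfin 0 h0) |>.mpr hne).ne'
    | succ j ih =>
      intro hj
      have h1 := ih (by omega)
      rw [range_add_one, filter_insert]
      by_cases hJj : J j
      · rw [if_pos hJj]
        have h2 : (S j).ncard < (S (j + 1)).ncard :=
          Set.ncard_lt_ncard (lt_of_le_of_ne (hmono j) (hJ j hJj)) (hfin (j + 1) hj)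
        have h3 := card_insert_le j ((range j).filter J)
        omega
      · rw [if_neg hJj]
        have h2 : (S j).ncard ≤ (S (j + 1)).ncard :=
          Set.ncard_le_ncard (hmono j) (hfin (j + 1) hj)
        omega
  refine (key k le_rfl).trans ?_
  calc (S k).ncard ≤ (↑s : Set L).ncard := Set.ncard_le_ncard hs s.finite_toSet
    _ = s.card := Set.ncard_coe_finset s

theorem col (f k : ℕ) (m : Fin f → ℕ) (Lab : Fin f → Type) (S : ∀ i, ℕ → Set (Lab i))
    (hmono : ∀ i j, S i j ⊆ S i (j + 1)) (hne : ∀ i, (S i 0).Nonempty)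
    (hfin : ∀ i, ∃ s : Finset (Lab i), s.card ≤ m i + 1 ∧ S i k ⊆ ↑s) (hk : ∑ i, m i < k) :
    ∃ j < k, ∀ i, S i j = S i (j + 1) := by
  classical
  by_contra hcon
  push Not at hcon
  have h1 : ∀ i, ((range k).filter (fun j => S i j ≠ S i (j + 1))).card ≤ m i := by
    intro i
    obtain ⟨s, hs1, hs2⟩ := hfin i
    have := jumps (S i) (hmono i) (hne i) k (fun j => S i j ≠ S i (j + 1)) (fun j h => h) s hs2
    omega
  have h2 : range k ⊆ univ.biUnion fun i => (range k).filter (fun j => S i j ≠ S i (j + 1)) := by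
    intro j hj
    obtain ⟨i, hi⟩ := hcon j (mem_range.mp hj)
    exact mem_biUnion.mpr ⟨i, mem_univ i, mem_filter.mpr ⟨hj, hi⟩⟩
  have h3 := card_le_card h2
  rw [card_range] at h3
  have h4 := h3.trans card_biUnion_le
  have h5 : ∑ i, ((range k).filter (fun j => S i j ≠ S i (j + 1))).card ≤ ∑ i, m i :=
    sum_le_sum fun i _ => h1 i
  omega

theorem t_COL : Pool.Agent.Y920.AD.S_COL := by
  intro f k m Lab S h1 h2 h3 h4
  exact col f k m Lab S h1 h2 h3 h4

end Pool.Agent.Y930.AD
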